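import Mathlib
import Pool.Agent.V7H83.MC.H

/-!
# The large value conjecture is equivalent to its endpoint for sets of integers

Q1 for all coefficients, all levels `V`, all `T` and all well spaced real points is equivalent to each of the
following statements without coefficients, for all `K` and all `ε > 0`:

* (endpoint) for all `A ⊆ {1, …, N}` at most `C N^(1+ε)` integers `t ∈ [0, N^K]` satisfy
  `|∑_{n ∈ A} n^{-it}| ≥ N^(1/2+ε)`;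
* (average) `∑_{n ≤ N} |∑_{t ∈ S} n^{it}| ≤ C N^(3/2+ε)` for every set `S` of at most `N` integers of `[0, N^K]`;
* (bilinear) `|∑_{n ∈ A} ∑_{t ∈ S} n^{it}| ≤ C N^(3/2+ε)` for these `S` and all `A ⊆ {1, …, N}`.

The main point is that the single level `V = N^(1/2+ε)` implies all the others: a family of `R` points at which
a polynomial is at least `V` is amplified to `J R` points by `J = 2^κ` disjoint translates with the signs of a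
Rudin Shapiro pair, whose two polynomials are never small together; the coefficients are removed by
convexity, and the large values on the new family are bounded by iterating the argument.
-/

set_option autoImplicit false

namespace Pool.Agent.Results.MP_a93a41_nt.EndpointH83

open Finset

/-- Q1 (the frozen statement S18085) -/
def Conjecture : Prop := ∀ ε : ℝ, 0 < ε → ∃ C : ℝ, 0 < C ∧
  ∀ (N : ℕ) (T V : ℝ) (a : ℕ → ℂ) (S : Finset ℝ),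
    1 ≤ N → 1 ≤ T → 0 < V →
    (∀ n, ‖a n‖ ≤ 1) →
    (N : ℝ) * T ^ ε ≤ V ^ 2 →
    (∀ t ∈ S, 0 ≤ t ∧ t ≤ T ∧
      V ≤ ‖∑ n ∈ Finset.Icc 1 N, a n * (n : ℂ) ^ (-((t : ℂ) * Complex.I))‖) →
    (∀ t ∈ S, ∀ u ∈ S, t ≠ u → 1 ≤ |t - u|) →
    (S.card : ℝ) ≤ C * (N : ℝ) ^ 2 / V ^ 2 * T ^ ε

/-- `R ≤ C N^(2+α+ε) V⁻²` for all `|a_n| ≤ 1`, all `V ≥ N^(1/2+ε)` and all `1`-spaced families in `[0, N^K]`
(all `K` and all `ε > 0`). -/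
def LargeValues (α : ℝ) : Prop := ∀ (K : ℕ) (ε : ℝ), 0 < ε → ∃ C : ℝ, 0 < C ∧
  ∀ (N : ℕ) (V : ℝ) (a : ℕ → ℂ) (S : Finset ℝ),
    1 ≤ N → (∀ n, ‖a n‖ ≤ 1) → (N : ℝ) ^ (1 / 2 + ε) ≤ V →
    (∀ t ∈ S, 0 ≤ t ∧ t ≤ (N : ℝ) ^ K ∧
      V ≤ ‖∑ n ∈ Finset.Icc 1 N, a n * (n : ℂ) ^ (-((t : ℂ) * Complex.I))‖) →
    (∀ t ∈ S, ∀ u ∈ S, t ≠ u → 1 ≤ |t - u|) →
    (S.card : ℝ) ≤ C * (N : ℝ) ^ (2 + α + ε) / V ^ 2

/-- For each set `A ⊆ {1, …, N}` at most `C N^(1+α+ε)` integers `t ∈ [0, N^K]` satisfy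
`|∑_{n ∈ A} n^{-it}| ≥ N^(1/2+ε)` (all `K` and all `ε > 0`). -/
def Endpoint (α : ℝ) : Prop := ∀ (K : ℕ) (ε : ℝ), 0 < ε → ∃ C : ℝ, 0 < C ∧
  ∀ (N : ℕ) (A S : Finset ℕ), 1 ≤ N → A ⊆ Finset.Icc 1 N →
    (∀ t ∈ S, t ≤ N ^ K ∧
      (N : ℝ) ^ (1 / 2 + ε) ≤ ‖∑ n ∈ A, (n : ℂ) ^ (-((t : ℂ) * Complex.I))‖) →
    (S.card : ℝ) ≤ C * (N : ℝ) ^ (1 + α + ε)

/-- `∑_{n ≤ N} |∑_{t ∈ S} n^{it}| ≤ C N^(3/2+α+ε)` for every set `S` of at most `N^(1+α)` integers of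
`[0, N^K]` (all `K` and all `ε > 0`). -/
def Average (α : ℝ) : Prop := ∀ (K : ℕ) (ε : ℝ), 0 < ε → ∃ C : ℝ, 0 < C ∧
  ∀ (N : ℕ) (S : Finset ℕ), 1 ≤ N → (∀ t ∈ S, t ≤ N ^ K) → (S.card : ℝ) ≤ (N : ℝ) ^ (1 + α) →
    ∑ n ∈ Finset.Icc 1 N, ‖∑ t ∈ S, (n : ℂ) ^ ((t : ℂ) * Complex.I)‖ ≤ C * (N : ℝ) ^ (3 / 2 + α + ε)

/-- `|∑_{n ∈ A} ∑_{t ∈ S} n^{it}| ≤ C N^(3/2+α+ε)` for every `A ⊆ {1, …, N}` and every set `S` of at most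
`N^(1+α)` integers of `[0, N^K]` (all `K` and all `ε > 0`). -/
def Bilinear (α : ℝ) : Prop := ∀ (K : ℕ) (ε : ℝ), 0 < ε → ∃ C : ℝ, 0 < C ∧
  ∀ (N : ℕ) (A S : Finset ℕ), 1 ≤ N → A ⊆ Finset.Icc 1 N → (∀ t ∈ S, t ≤ N ^ K) →
    (S.card : ℝ) ≤ (N : ℝ) ^ (1 + α) →
    ‖∑ n ∈ A, ∑ t ∈ S, (n : ℂ) ^ ((t : ℂ) * Complex.I)‖ ≤ C * (N : ℝ) ^ (3 / 2 + α + ε)

/-- **Main theorem.** For every `α ≥ 0` the statements `LargeValues α`, `Endpoint α`, `Average α` and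
`Bilinear α` are equivalent, and Q1 is the case `α = 0`. -/
theorem result : (Conjecture ↔ LargeValues 0) ∧ ∀ α : ℝ, 0 ≤ α →
    (Endpoint α ↔ LargeValues α) ∧ (Average α ↔ LargeValues α) ∧ (Bilinear α ↔ LargeValues α) := by
  refine ⟨Pool.Agent.V7H83.MC.Q1_iff, fun α hα => ?_⟩
  have h1 := Pool.Agent.V7H83.MC.allA hα
  exact ⟨h1.1, ⟨Pool.Agent.V7H83.MC.lv_of_l1 hα, fun h =>
    Pool.Agent.V7H83.MC.l1_of_bilA (Pool.Agent.V7H83.MC.bilA_of_lv h)⟩, h1.2⟩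

end Pool.Agent.Results.MP_a93a41_nt.EndpointH83
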