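import Mathlib
import Pool.Agent.V7H56.LD.AllK
import Pool.Agent.V7H56.LD.Fam

/-!
# The large value conjecture is a large deviation bound for random signs

* Q1 is equivalent to the following statement about random signs: for all `K`, `ε > 0` and all large `N`, at
  most `2^N exp(-N^(1-ε))` of the `2^N` sign patterns `f` have `|∑_{n ≤ N} f_n n^{-it}| ≥ N^(1/2+ε)` for at
  least `N^(1+ε)` integers `t ∈ [0, N^K]`. In particular a bound for almost all sign patterns with an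
  exceptional set of this size implies the bound for all coefficients.
* Unconditionally, for each `K` and all `1 ≤ R ≤ N^δ`, `δ = 1/(8K 4^K)`, at most `2^N exp(-R N^ε)` sign
  patterns have at least `R` such integers.
* A large deviation bound for separated real points and `D` families of coefficients, and its consequence for
  sets of coefficient vectors of metric entropy `d`: for almost all `f` the number of large values of
  `∑ f_n a_n n^{-it}` is at most `C N d V⁻²` up to logarithms as soon as `V² ≥ C (N + d √T)` up to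
  logarithms. For `d = N` this is the known range of the conjecture.

The first part is proved by a change of measure: a set `A` with `N^(1+ε)` large values is hidden in the sign
patterns with a bias `δ = N^(-ε/2)` towards `1` on `A`, at the cost `exp(-δ² N)` in the counting.
-/

set_option autoImplicit false

namespace Pool.Agent.Results.MP_a93a41_nt.LargeDeviationsH56

open Finset

/-- Q1 (the frozen statement S18085) -/
def Conjecture : Prop := ∀ ε : ℝ, 0 < ε → ∃ C : ℝ, 0 < C ∧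
  ∀ (N : ℕ) (T V : ℝ) (a : ℕ → ℂ) (S : Finset ℝ),
    1 ≤ N → 1 ≤ T → 0 < V →
    (∀ n, ‖a n‖ ≤ 1) →
    (N : ℝ) * T ^ ε ≤ V ^ 2 →
    (∀ t ∈ S, 0 ≤ t ∧ t ≤ T ∧
      V ≤ ‖∑ n ∈ Finset.Icc 1 N, a n * (n : ℂ) ^ (-((t : ℂ) * Complex.I))‖) →
    (∀ t ∈ S, ∀ u ∈ S, t ≠ u → 1 ≤ |t - u|) →
    (S.card : ℝ) ≤ C * (N : ℝ) ^ 2 / V ^ 2 * T ^ ε

/-- `R ≤ C N^(2+α+ε) V⁻²` for all `|a_n| ≤ 1`, all `V ≥ N^(1/2+ε)` and all `1`-spaced families in `[0, N^K]`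
(all `K` and all `ε > 0`). -/
def LargeValues (α : ℝ) : Prop := ∀ (K : ℕ) (ε : ℝ), 0 < ε → ∃ C : ℝ, 0 < C ∧
  ∀ (N : ℕ) (V : ℝ) (a : ℕ → ℂ) (S : Finset ℝ),
    1 ≤ N → (∀ n, ‖a n‖ ≤ 1) → (N : ℝ) ^ (1 / 2 + ε) ≤ V →
    (∀ t ∈ S, 0 ≤ t ∧ t ≤ (N : ℝ) ^ K ∧
      V ≤ ‖∑ n ∈ Finset.Icc 1 N, a n * (n : ℂ) ^ (-((t : ℂ) * Complex.I))‖) →
    (∀ t ∈ S, ∀ u ∈ S, t ≠ u → 1 ≤ |t - u|) →
    (S.card : ℝ) ≤ C * (N : ℝ) ^ (2 + α + ε) / V ^ 2

/-- The polynomial `∑_{n ≤ N} f_n a_n n^{-it}` with the sign pattern `f_n = 1` for `n ∈ P` and `f_n = -1` for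
`n ∉ P`, where `P ⊆ {1, …, N}`. -/
noncomputable def signed (N : ℕ) (P : Finset ℕ) (a : ℕ → ℂ) (t : ℝ) : ℂ :=
  ∑ n ∈ Icc 1 N, (if n ∈ P then (1 : ℂ) else -1) * a n * (n : ℂ) ^ (-((t : ℂ) * Complex.I))

/-- The number of the integers `0 ≤ t ≤ N^K` with `|∑_{n ≤ N} f_n n^{-it}| ≥ N^(1/2+ε)`. -/
noncomputable def count (N K : ℕ) (ε : ℝ) (P : Finset ℕ) : ℕ :=
  ((range (N ^ K + 1)).filter (fun t : ℕ => (N : ℝ) ^ (1 / 2 + ε) ≤ ‖signed N P (fun _ => 1) t‖)).card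

/-- For all `K`, `ε > 0` and all large `N`, at most `2^N exp(-N^(1-ε))` of the `2^N` sign patterns have at
least `N^(1+α+ε)` integers `t ≤ N^K` with `|∑_{n ≤ N} f_n n^{-it}| ≥ N^(1/2+ε)`. -/
def ExpRare (α : ℝ) : Prop := ∀ (K : ℕ) (ε : ℝ), 0 < ε → ∃ N₀ : ℕ, ∀ N : ℕ, N₀ ≤ N →
  (((Icc 1 N).powerset.filter (fun P => (N : ℝ) ^ (1 + α + ε) ≤ (count N K ε P : ℝ))).card : ℝ) ≤
    2 ^ N * Real.exp (-(N : ℝ) ^ (1 - ε))

/-- `S` is a `1`-spaced set in `[0, T]` on which `|∑_{n ≤ N} f_n a_n n^{-it}| ≥ V`. -/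
def LargeOn (N : ℕ) (P : Finset ℕ) (a : ℕ → ℂ) (T V : ℝ) (S : Finset ℝ) : Prop :=
  (∀ t ∈ S, 0 ≤ t ∧ t ≤ T ∧ V ≤ ‖signed N P a t‖) ∧ (∀ t ∈ S, ∀ u ∈ S, t ≠ u → 1 ≤ |t - u|)

/-- `1 + log N + log T` -/
noncomputable def ell (N : ℕ) (T : ℝ) : ℝ := 1 + Real.log N + Real.log T

theorem signed_one (N : ℕ) (P : Finset ℕ) (t : ℝ) :
    signed N P (fun _ => 1) t = Pool.Agent.V7H56.LD.SD N P t := by
  unfold signed Pool.Agent.V7H56.LD.SD
  apply sum_congr rfl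
  intro n _
  rw [mul_one]

theorem count_eq (N K : ℕ) (ε : ℝ) (P : Finset ℕ) : count N K ε P = Pool.Agent.V7H56.LD.cnt N K ε P := by
  unfold count Pool.Agent.V7H56.LD.cnt
  simp only [signed_one]

theorem expRare_eq (α : ℝ) : ExpRare α ↔ Pool.Agent.V7H56.LD.Rare α := by
  unfold ExpRare Pool.Agent.V7H56.LD.Rare
  simp only [count_eq]

open Classical in
/-- **Main theorem.** (1) Q1 is equivalent to the large deviation bound `ExpRare 0`, and with a loss `α` in the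
exponent likewise. (2) For each `K`, large deviations of the number of large values at the integers up to
`N^K`. (3) The same at separated real points for `D` families of coefficients. (4) Sets of coefficient vectors
of metric entropy `d`. -/
theorem result :
    ((Conjecture ↔ ExpRare 0) ∧ ∀ α : ℝ, 0 ≤ α → (LargeValues α ↔ ExpRare α)) ∧
    (∀ K : ℕ, 1 ≤ K → ∀ ε : ℝ, 0 < ε → ∃ N₀ : ℕ, ∀ N : ℕ, N₀ ≤ N → ∀ R : ℕ, 1 ≤ R →
      (R : ℝ) ≤ (N : ℝ) ^ (1 / (8 * K * 4 ^ K) : ℝ) →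
      (((Icc 1 N).powerset.filter (fun P => R ≤ count N K ε P)).card : ℝ) ≤
        2 ^ N * Real.exp (-(R * (N : ℝ) ^ ε))) ∧
    (∀ (N R D : ℕ) (T V : ℝ) (a : Fin D → ℕ → ℂ), 1 ≤ N → 1 ≤ R → 1 ≤ T → 0 < V →
      (∀ j n, ‖a j n‖ ≤ 1) → 27000 * ((N + R * Real.sqrt T) * ell N T ^ 3) ≤ V ^ 2 →
      (((Icc 1 N).powerset.filter (fun P => ∃ j, ∃ S : Finset ℝ, R ≤ S.card ∧
        LargeOn N P (a j) T V S)).card : ℝ) ≤
        D * (2 ^ N * Real.exp (-(R * V ^ 2 / (27000 * ((N + R * Real.sqrt T) * ell N T ^ 2)))))) ∧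
    (∀ (N D : ℕ) (T V d : ℝ) (A : Set (ℕ → ℂ)) (b : Fin D → ℕ → ℂ), 1 ≤ N → 1 ≤ T → 0 < V → 1 ≤ d →
      (D : ℝ) ≤ Real.exp d → (∀ j n, ‖b j n‖ ≤ 1) →
      (∀ a ∈ A, ∃ j, ∑ n ∈ Icc 1 N, ‖a n - b j n‖ ≤ V / 2) →
      432000 * ((N + d * Real.sqrt T) * ell N T ^ 3) ≤ V ^ 2 →
      (((Icc 1 N).powerset.filter (fun P => ∃ a ∈ A, ∃ S : Finset ℝ,
        432000 * N * d * ell N T ^ 2 / V ^ 2 < (S.card : ℝ) ∧ LargeOn N P a T V S)).card : ℝ) ≤
        2 ^ N * Real.exp (-d)) := by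
  refine ⟨⟨?_, ?_⟩, ?_, ?_, ?_⟩
  · rw [expRare_eq]
    exact Pool.Agent.V7H83.MC.Q1_iff.trans (Pool.Agent.V7H56.LD.rare_iff le_rfl)
  · intro α hα
    rw [expRare_eq]
    exact Pool.Agent.V7H56.LD.rare_iff hα
  · intro K hK ε hε
    obtain ⟨N₀, h⟩ := Pool.Agent.V7H56.LD.few_tail K hK ε hε
    refine ⟨N₀, fun N hN R hR hRN => ?_⟩
    have h1 := h N hN R hR hRN
    simp only [count_eq]
    exact h1
  · intro N R D T V a hN hR hT hV ha hc
    have h1 := Pool.Agent.V7H56.LD.real_tail N R D hN hR T V hT hV a ha hc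
    refine le_trans (Nat.cast_le.2 (card_le_card ?_)) h1
    intro P hP
    rw [mem_filter] at hP ⊢
    obtain ⟨hP1, j, S, hS1, hS2, hS3⟩ := hP
    exact ⟨hP1, j, S, hS1, hS2, hS3⟩
  · intro N D T V d A b hN hT hV hd hD hb hA hc
    have h1 := Pool.Agent.V7H56.LD.entropy_bound N D hN T V d hT hV hd hD A b hb hA hc
    refine le_trans (Nat.cast_le.2 (card_le_card ?_)) h1
    intro P hP
    rw [mem_filter] at hP ⊢
    obtain ⟨hP1, a, ha, S, hS1, hS2, hS3⟩ := hP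
    exact ⟨hP1, a, ha, S, hS1, hS2, hS3⟩

end Pool.Agent.Results.MP_a93a41_nt.LargeDeviationsH56
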