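import Mathlib
import Pool.Agent.V7H89.PI.SieveD

set_option autoImplicit false

/-!
# Large values and the large sieve for almost every perturbation of the integers

Q1 asks for `R ≤ C N² V⁻² T^ε` for `D(s) = ∑_{n ≤ N} a_n n^{-s}`, `|a_n| ≤ 1`, all `V² ≥ N T^ε` and all
`1`-spaced families in `[0,T]`. Here the integers `n` are replaced by `x_n = n + ξ_n`, where the `ξ_n` are
independent random variables with values in `[0,1]` whose laws have densities at most `K_η n^(κ+η)` for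
every `η > 0` (for instance uniform on `[0, δ_n]` with `δ_n ≥ n^{-κ-o(1)}`). Almost surely, for every `ε > 0`,

* `∑_{t ∈ S} |D(it)|² ≤ C T^ε (N^(1+κ) + |S|) ∑_{n ≤ N} |a_n|²` for all `N`, `T`, ALL coefficients and all
  `1`-spaced `S ⊂ [0,T]`;
* `R ≤ C N^(2+κ) V⁻² T^ε` for all `N`, `T`, `V` with `V² ≥ N T^ε`, all `|a_n| ≤ 1` and all families.

For `κ = 0` the second statement is Q1 in full, in its whole range, for almost every perturbation, even if the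
perturbations tend to `0` (slower than every power of `n`), and the first one is the large sieve inequality
with the sharp factor `N + |S|`, which is false for the integers themselves (Bourgain's example for the
`ℓ²` form of the conjecture). For `κ > 0` the bounds are those of the mean value theorem at `T = N^(1+κ)`,
for all larger `T`.

By duality, `∑_n |∑_{t ∈ W} b_t x_n^{it}|²` has to be bounded for all `W` at once. The sum over `W` is
approximated by short sums (the method of Maurey); the superlevel sets of all short sums of length `m` are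
met by the random points at most as often as expected, up to `O(m log N)` (union bound), and the mean
square over a fine grid of `[1, N+1]` is bounded without any loss, because a point of the grid has
probability `N^{o(1)}` times its share. For `T³ ≤ N` a deterministic bound with `log T` is used.
-/

namespace Pool.Agent.Results.MP_a93a41_nt.PerturbedIntegersH89

open MeasureTheory ProbabilityTheory

/-- Q1 for `D(it) = ∑_{n ≤ N} a_n x_n^{-it}`, with the bound `C N^(2+κ) V⁻² T^ε` (`x_n = n` and `κ = 0` is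
the statement S18085 for this `ε`). -/
def LargeValues (x : ℕ → ℝ) (κ ε : ℝ) : Prop := ∃ C : ℝ, 0 < C ∧
  ∀ (N : ℕ) (T V : ℝ) (a : ℕ → ℂ) (S : Finset ℝ),
    1 ≤ N → 1 ≤ T → 0 < V →
    (∀ n, ‖a n‖ ≤ 1) →
    (N : ℝ) * T ^ ε ≤ V ^ 2 →
    (∀ t ∈ S, 0 ≤ t ∧ t ≤ T ∧
      V ≤ ‖∑ n ∈ Finset.Icc 1 N, a n * ((x n : ℝ) : ℂ) ^ (-((t : ℂ) * Complex.I))‖) →
    (∀ t ∈ S, ∀ u ∈ S, t ≠ u → 1 ≤ |t - u|) →
    (S.card : ℝ) ≤ C * (N : ℝ) ^ (2 + κ) / V ^ 2 * T ^ ε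

/-- The large sieve inequality `∑_{t ∈ S} |D(it)|² ≤ C T^ε (N^(1+κ) + |S|) ∑ |a_n|²` for
`D(it) = ∑_{n ≤ N} a_n x_n^{-it}`, for all coefficients and all `1`-spaced sets `S ⊂ [0,T]`. -/
def LargeSieve (x : ℕ → ℝ) (κ ε : ℝ) : Prop := ∃ C : ℝ, 0 < C ∧
  ∀ (N : ℕ) (T : ℝ) (a : ℕ → ℂ) (S : Finset ℝ),
    1 ≤ N → 1 ≤ T → (∀ t ∈ S, 0 ≤ t ∧ t ≤ T) →
    (∀ t ∈ S, ∀ u ∈ S, t ≠ u → 1 ≤ |t - u|) →
    ∑ t ∈ S, ‖∑ n ∈ Finset.Icc 1 N, a n * ((x n : ℝ) : ℂ) ^ (-((t : ℂ) * Complex.I))‖ ^ 2 ≤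
      C * T ^ ε * ((N : ℝ) ^ (1 + κ) + S.card) * ∑ n ∈ Finset.Icc 1 N, ‖a n‖ ^ 2

/-- **Main theorem.** (1) Almost every perturbation `x_n = n + ξ_n` with independent `ξ_n` in `[0,1]` whose
laws have densities at most `K_η n^(κ+η)` for every `η > 0`. (2) For every sequence `δ_n` in `(0,1]` with
`δ_n ≥ c_η n^(-κ-η)` for every `η > 0` there is a sequence `x_n` in `[n, n + δ_n]` with the same bounds. -/
theorem result :
    (∀ (Ω : Type) (_ : MeasurableSpace Ω) (P : Measure Ω) (_ : IsProbabilityMeasure P)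
      (ξ : ℕ → Ω → ℝ) (κ : ℝ), 0 ≤ κ → (∀ n, Measurable (ξ n)) → iIndepFun ξ P →
      (∀ n ω, 0 ≤ ξ n ω ∧ ξ n ω ≤ 1) →
      (∀ η : ℝ, 0 < η → ∃ K : ℝ, ∀ n : ℕ, 1 ≤ n → ∀ a b : ℝ, a ≤ b →
        P {ω | a ≤ ξ n ω ∧ ξ n ω ≤ b} ≤ ENNReal.ofReal (K * (n : ℝ) ^ (κ + η) * (b - a))) →
      ∀ᵐ ω ∂P, ∀ ε : ℝ, 0 < ε →
        LargeSieve (fun n => (n : ℝ) + ξ n ω) κ ε ∧ LargeValues (fun n => (n : ℝ) + ξ n ω) κ ε) ∧
    (∀ (δ : ℕ → ℝ) (κ : ℝ), 0 ≤ κ → (∀ n, 0 < δ n) → (∀ n, δ n ≤ 1) →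
      (∀ η : ℝ, 0 < η → ∃ c : ℝ, 0 < c ∧ ∀ n : ℕ, 1 ≤ n → c * (n : ℝ) ^ (-(κ + η)) ≤ δ n) →
      ∃ x : ℕ → ℝ, (∀ n : ℕ, (n : ℝ) ≤ x n ∧ x n ≤ n + δ n) ∧
        ∀ ε : ℝ, 0 < ε → LargeSieve x κ ε ∧ LargeValues x κ ε) :=
  ⟨fun _ _ _ _ ξ κ hκ hm hi h01 hlaw => Pool.Agent.V7H89.PI.almost_all2 ξ hm hi h01 κ hκ hlaw,
    fun δ κ hκ h0 h1 hδ => Pool.Agent.V7H89.PI.exists_near2 δ κ hκ h0 h1 hδ⟩

end Pool.Agent.Results.MP_a93a41_nt.PerturbedIntegersH89
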