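import Pool.Agent.V7H80.LV.Ind
import Pool.Agent.V7H80.LV.Fin

set_option autoImplicit false

/-!
# Large values of Dirichlet polynomials at boundedly independent points

Q1 asks for `R ≤ C N² V⁻² T^ε` for all `1`-spaced families in `[0,T]` and all `V² ≥ N T^ε`. For fully independent
random points this is known (with no loss). Here it is shown that `q`-wise independence is enough, with
`q ≥ 2 + (8 + 4A)/ε`: at the points `g(x) + T(x) U_x`, `g` and `T ≥ H` arbitrary, the `U_x` uniform in `[0,1]` and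
`q`-wise independent, the large sieve inequality with loss `N^ε` holds almost surely for ALL Dirichlet
polynomials at once. In particular the points can be generated by `q` random parameters: the fractional parts
`U_x = {θ_0 + θ_1 x + … + θ_{k(N)-1} x^{k(N)-1}}` of a random polynomial, `k(N) ≥ q` for all large `N`; so for
given `ε` the number of random parameters is bounded, and it tends to infinity arbitrarily slowly if all `ε` are
wanted, while fully independent points need as many parameters as points.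

The proof is the method of moments: the trace of a power of the matrix `∑_n n^{-i(t_r - t_s)}` is a sum over
closed walks of length `q`, which visit at most `q` points. For a closed walk the sum over the `n` is
triangular: at the last visit to a point the next `n` is determined by the previous ones up to `1/T`.
-/

namespace Pool.Agent.Results.MP_a93a41_nt.PolynomialArgumentsH80

open Finset MeasureTheory

/-- `D(it) = ∑_{n ≤ N} a_n n^{-it}` -/
noncomputable def D (a : ℕ → ℂ) (N : ℕ) (t : ℝ) : ℂ :=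
  ∑ n ∈ Icc 1 N, a n * (n : ℂ) ^ (-(t : ℂ) * Complex.I)

/-- The bounds at the points `t N l x`, `x ∈ S N l`, for all `N` and `l ≤ N^A` and all coefficients `a`, with
`b = b N l ≥ 1`:
(A) `∑_x |D(i t_x)|² ≤ C N^ε (N + |S| b) ∑ |a_n|²`;
(B) if `|a_n| ≤ 1`, then for every `V > 0` at most `C N^(1+ε) (N + |S| b) / V²` of the points have
`|D(i t_x)| ≥ V`;
(C) if `|a_n| ≤ 1`, `V² ≥ C N^(1+ε) b` and `|D(i t_x)| ≥ V` for all `x ∈ S`, then `|S| ≤ C N^(2+ε) / V²`. -/
def Bounds {ι : Type} (ε A : ℝ) (S : ℕ → ℕ → Finset ι) (t : ℕ → ℕ → ι → ℝ) (b : ℕ → ℕ → ℝ) : Prop :=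
  ∃ C : ℝ, 0 ≤ C ∧ ∀ N l : ℕ, 1 ≤ N → (l : ℝ) ≤ (N : ℝ) ^ A → ∀ a : ℕ → ℂ,
    (∑ x ∈ S N l, ‖D a N (t N l x)‖ ^ 2 ≤
      C * (N : ℝ) ^ ε * (N + (S N l).card * b N l) * ∑ n ∈ Icc 1 N, ‖a n‖ ^ 2) ∧
    ((∀ n, ‖a n‖ ≤ 1) → ∀ V : ℝ, 0 < V →
      (∀ W ⊆ S N l, (∀ x ∈ W, V ≤ ‖D a N (t N l x)‖) →
        (W.card : ℝ) ≤ C * (N : ℝ) ^ (1 + ε) * (N + (S N l).card * b N l) / V ^ 2) ∧
      ((∀ x ∈ S N l, V ≤ ‖D a N (t N l x)‖) → C * (N : ℝ) ^ (1 + ε) * b N l ≤ V ^ 2 →
        ((S N l).card : ℝ) ≤ C * (N : ℝ) ^ (2 + ε) / V ^ 2))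

/-- (B) and (C) follow from (A). -/
theorem bounds_of {ι : Type} {ε A : ℝ} {S : ℕ → ℕ → Finset ι} {t : ℕ → ℕ → ι → ℝ} {b : ℕ → ℕ → ℝ}
    (hb : ∀ N l, 0 ≤ b N l)
    (h : ∃ C : ℝ, 0 ≤ C ∧ ∀ N l : ℕ, 1 ≤ N → (l : ℝ) ≤ (N : ℝ) ^ A → ∀ a : ℕ → ℂ,
      ∑ x ∈ S N l, ‖D a N (t N l x)‖ ^ 2 ≤
        C * (N : ℝ) ^ ε * (N + (S N l).card * b N l) * ∑ n ∈ Icc 1 N, ‖a n‖ ^ 2) :
    Bounds ε A S t b := by
  obtain ⟨C, hC, h⟩ := h
  refine ⟨2 * C, by positivity, ?_⟩
  intro N l hN hl a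
  have hN1 : (1 : ℝ) ≤ N := by exact_mod_cast hN
  have hN0 : (0 : ℝ) < N := by linarith
  have hbN := hb N l
  have hB0 : (0 : ℝ) ≤ N + (S N l).card * b N l := by positivity
  have hsa : 0 ≤ ∑ n ∈ Icc 1 N, ‖a n‖ ^ 2 := Finset.sum_nonneg fun _ _ => sq_nonneg _
  have hA := h N l hN hl a
  have hNε : (0 : ℝ) < (N : ℝ) ^ ε := Real.rpow_pos_of_pos hN0 _
  refine ⟨?_, ?_⟩
  · refine hA.trans ?_
    apply mul_le_mul_of_nonneg_right _ hsa
    apply mul_le_mul_of_nonneg_right _ hB0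
    apply mul_le_mul_of_nonneg_right _ hNε.le
    linarith
  · intro ha V hV
    have h1 : ∑ n ∈ Icc 1 N, ‖a n‖ ^ 2 ≤ N := by
      calc ∑ n ∈ Icc 1 N, ‖a n‖ ^ 2 ≤ ∑ _n ∈ Icc 1 N, (1 : ℝ) := by
            refine Finset.sum_le_sum fun n _ => ?_
            exact pow_le_one₀ (norm_nonneg _) (ha n)
        _ = N := by simp
    have e1 : (N : ℝ) ^ (1 + ε) = (N : ℝ) ^ ε * N := by
      rw [Real.rpow_add hN0, Real.rpow_one, mul_comm]
    have e2 : (N : ℝ) ^ (2 + ε) = (N : ℝ) ^ ε * (N * N) := by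
      rw [Real.rpow_add hN0, mul_comm]
      congr 1
      rw [Real.rpow_two]
      ring
    have h2 : ∀ W ⊆ S N l, (∀ x ∈ W, V ≤ ‖D a N (t N l x)‖) →
        (W.card : ℝ) * V ^ 2 ≤ C * (N : ℝ) ^ (1 + ε) * (N + (S N l).card * b N l) := by
      intro W hW hWV
      calc (W.card : ℝ) * V ^ 2 = ∑ _x ∈ W, V ^ 2 := by rw [Finset.sum_const, nsmul_eq_mul]
        _ ≤ ∑ x ∈ W, ‖D a N (t N l x)‖ ^ 2 :=
            Finset.sum_le_sum fun x hx => pow_le_pow_left₀ hV.le (hWV x hx) 2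
        _ ≤ ∑ x ∈ S N l, ‖D a N (t N l x)‖ ^ 2 :=
            Finset.sum_le_sum_of_subset_of_nonneg hW fun _ _ _ => sq_nonneg _
        _ ≤ C * (N : ℝ) ^ ε * (N + (S N l).card * b N l) * ∑ n ∈ Icc 1 N, ‖a n‖ ^ 2 := hA
        _ ≤ C * (N : ℝ) ^ ε * (N + (S N l).card * b N l) * N :=
            mul_le_mul_of_nonneg_left h1 (by positivity)
        _ = C * (N : ℝ) ^ (1 + ε) * (N + (S N l).card * b N l) := by
            rw [e1]
            ring
    have hV2 : 0 < V ^ 2 := by positivity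
    refine ⟨?_, ?_⟩
    · intro W hW hWV
      rw [le_div_iff₀ hV2]
      refine (h2 W hW hWV).trans ?_
      apply mul_le_mul_of_nonneg_right _ hB0
      apply mul_le_mul_of_nonneg_right _ (by positivity)
      linarith
    · intro hWV hlarge
      have h3 := h2 (S N l) (Finset.Subset.refl _) hWV
      rw [le_div_iff₀ hV2, e2]
      rw [e1] at h3 hlarge
      have hR : (0 : ℝ) ≤ (S N l).card := Nat.cast_nonneg _
      have h4 := mul_le_mul_of_nonneg_left hlarge hR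
      nlinarith

theorem result :
    ∀ ε A : ℝ, 0 < ε → 0 < A → ∀ q : ℕ, 2 + (8 + 4 * A) / ε ≤ q →
      -- (1) `q`-wise independent points: the `U N l x`, `x ∈ S N l`, are uniform in `[0, 1]`, any `q` of them
      -- are independent (`N` large, `l ≤ N^A`)
      (∀ (Ω : Type) [MeasurableSpace Ω] (P : Measure Ω) [IsProbabilityMeasure P]
        (S : ℕ → ℕ → Finset ℕ) (U : ℕ → ℕ → ℕ → Ω → ℝ),
        (∀ᶠ N : ℕ in Filter.atTop, ∀ l : ℕ, (l : ℝ) ≤ (N : ℝ) ^ A →
          (∀ x ∈ S N l, Measurable (U N l x) ∧ P.map (U N l x) = volume.restrict (Set.Icc (0 : ℝ) 1)) ∧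
          ∀ W ⊆ S N l, W.card ≤ q → ProbabilityTheory.iIndepFun (fun (x : W) => U N l x) P) →
        ∀ (g T : ℕ → ℕ → ℕ → ℝ) (H : ℕ → ℕ → ℝ),
        (∀ N l : ℕ, 0 < H N l) → (∀ N l x : ℕ, H N l ≤ T N l x) →
        ∀ᵐ ω ∂P, Bounds ε A S (fun N l x => g N l x + T N l x * U N l x ω) (fun N l => 1 + N / H N l)) ∧
      -- (2) fractional parts of random polynomials with `k(N) ≥ q` coefficients `θ i`, independent and uniform
      -- in `[0, 1]`
      (∀ (Ω : Type) [MeasurableSpace Ω] (P : Measure Ω) [IsProbabilityMeasure P] (θ : ℕ → Ω → ℝ),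
        (∀ i, Measurable (θ i)) → ProbabilityTheory.iIndepFun θ P →
        (∀ i, P.map (θ i) = volume.restrict (Set.Icc (0 : ℝ) 1)) →
        ∀ k : ℕ → ℕ, (∀ᶠ N in Filter.atTop, q ≤ k N) →
        ∀ (S : ℕ → ℕ → Finset ℕ) (g T : ℕ → ℕ → ℕ → ℝ) (H : ℕ → ℕ → ℝ),
        (∀ N l : ℕ, 0 < H N l) → (∀ N l x : ℕ, H N l ≤ T N l x) →
        ∀ᵐ ω ∂P, Bounds ε A S
          (fun N l x => g N l x + T N l x * Int.fract (∑ i ∈ range (k N), θ i ω * (x : ℝ) ^ i))
          (fun N l => 1 + N / H N l)) := by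
  intro ε A hε hA q hqq
  obtain ⟨q₀, hq₀, hq⟩ := Pool.Agent.V7H80.LV.coreU ε A hε hA
  have hqle : q₀ ≤ q := by exact_mod_cast hq₀.trans hqq
  have hb : ∀ H : ℕ → ℕ → ℝ, (∀ N l : ℕ, 0 < H N l) → ∀ N l, (0 : ℝ) ≤ 1 + N / H N l := by
    intro H hH N l
    have := hH N l
    positivity
  refine ⟨?_, ?_⟩
  · intro Ω _ P _ S U hU g T H hH hT
    obtain ⟨N₁, hN₁⟩ := Filter.eventually_atTop.1 hU
    have h1 := hq Ω P S (fun N l ω x => ((U N l x ω : ℝ) : UnitAddCircle))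
      ⟨N₁, fun N hN l hl => Pool.Agent.V7H80.LV.qind_real P (S N l) (U N l) q₀ (hN₁ N hN l hl).1
        fun W hW hWq => (hN₁ N hN l hl).2 W hW (hWq.trans hqle)⟩
      g T H hH hT
    have h2 : ∀ᵐ ω ∂P, ∀ N l x : ℕ, N₁ ≤ N → (l : ℝ) ≤ (N : ℝ) ^ A → x ∈ S N l →
        Pool.Agent.V7H80.LV.frac ((U N l x ω : ℝ) : UnitAddCircle) = U N l x ω := by
      rw [ae_all_iff]
      intro N
      rw [ae_all_iff]
      intro l
      rw [ae_all_iff]
      intro x
      by_cases hc : N₁ ≤ N ∧ (l : ℝ) ≤ (N : ℝ) ^ A ∧ x ∈ S N l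
      · have h3 := (hN₁ N hc.1 l hc.2.1).1 x hc.2.2
        filter_upwards [Pool.Agent.V7H80.LV.frac_ae P (U N l x) h3.1 h3.2] with ω hω
        intro _ _ _
        exact hω
      · filter_upwards with ω
        intro a1 a2 a3
        exact absurd ⟨a1, a2, a3⟩ hc
    filter_upwards [h1, h2] with ω hω hω2
    apply bounds_of (hb H hH)
    obtain ⟨C, hC, hω⟩ := hω
    refine ⟨max C N₁, hC.trans (le_max_left _ _), ?_⟩
    intro N l hN hl a
    have hN1 : (1 : ℝ) ≤ N := by exact_mod_cast hN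
    have hNε : (1 : ℝ) ≤ (N : ℝ) ^ ε := Real.one_le_rpow hN1 hε.le
    have hsa : 0 ≤ ∑ n ∈ Icc 1 N, ‖a n‖ ^ 2 := Finset.sum_nonneg fun _ _ => sq_nonneg _
    have hbN := hb H hH N l
    have hHN := hH N l
    rcases le_or_gt N₁ N with hc | hc
    · have h3 := hω N l hN hl a
      have h4 : ∀ x ∈ S N l, Pool.Agent.V7H80.LV.tauU (g N l) (T N l)
          (fun x => ((U N l x ω : ℝ) : UnitAddCircle)) x = g N l x + T N l x * U N l x ω := by
        intro x hx
        unfold Pool.Agent.V7H80.LV.tauU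
        rw [hω2 N l x hc hl hx]
      rw [Finset.sum_congr rfl (fun x hx => by rw [h4 x hx])] at h3
      refine le_trans h3 ?_
      apply mul_le_mul_of_nonneg_right _ hsa
      apply mul_le_mul_of_nonneg_right _ (by positivity)
      exact mul_le_mul_of_nonneg_right (le_max_left _ _) (by positivity)
    · have h3 := Pool.Agent.V7H80.LV.trivial_boundG a N (fun x : S N l => g N l x + T N l x * U N l x ω)
      rw [Finset.sum_coe_sort (S N l) (fun x => ‖Pool.Agent.V7H80.LV.D a N (g N l x + T N l x * U N l x ω)‖ ^ 2),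
        Fintype.card_coe] at h3
      refine le_trans h3 ?_
      rw [← mul_assoc]
      apply mul_le_mul_of_nonneg_right _ hsa
      have h5 : (N : ℝ) ≤ N₁ := by exact_mod_cast hc.le
      have h6 : ((S N l).card : ℝ) ≤ N + (S N l).card * (1 + N / H N l) := by
        have : 0 ≤ ((S N l).card : ℝ) * (N / H N l) := by positivity
        rw [mul_add, mul_one]
        linarith
      calc ((S N l).card : ℝ) * N ≤ (N + (S N l).card * (1 + N / H N l)) * N₁ :=
            mul_le_mul h6 h5 (by positivity) (by positivity)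
        _ = N₁ * 1 * (N + (S N l).card * (1 + N / H N l)) := by ring
        _ ≤ max C (N₁ : ℝ) * (N : ℝ) ^ ε * (N + (S N l).card * (1 + N / H N l)) := by
            apply mul_le_mul_of_nonneg_right _ (by positivity)
            exact mul_le_mul (le_max_right _ _) hNε (by positivity) (hC.trans (le_max_left _ _))
  · intro Ω _ P _ θ hθ hind hunif k hk S g T H hH hT
    obtain ⟨N₁, hN₁⟩ := Filter.eventually_atTop.1 hk
    have h1 := hq Ω P S (fun N _ ω x => Pool.Agent.V7H80.LV.lf (fun v i => (v : ℤ) ^ i)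
        (fun i : Fin (k N) => ((θ i ω : ℝ) : UnitAddCircle)) x)
      ⟨N₁, fun N hN l _ => Pool.Agent.V7H80.LV.qind_lf P _
        (Pool.Agent.V7H80.LV.law P θ hθ hind hunif (k N)) (fun v i => (v : ℤ) ^ i) (S N l) q₀
        (fun W _ hWq => Pool.Agent.V7H80.LV.vander W (hWq.trans (hqle.trans (hN₁ N hN))))⟩
      g T H hH hT
    filter_upwards [h1] with ω hω
    apply bounds_of (hb H hH)
    obtain ⟨C, hC, hω⟩ := hω
    refine ⟨C, hC, ?_⟩
    intro N l hN hl a
    have h3 := hω N l hN hl a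
    have h4 : ∀ x : ℕ, Pool.Agent.V7H80.LV.tauU (g N l) (T N l)
        (fun x => Pool.Agent.V7H80.LV.lf (fun v i => (v : ℤ) ^ i)
          (fun i : Fin (k N) => ((θ i ω : ℝ) : UnitAddCircle)) x) x =
        g N l x + T N l x * Int.fract (∑ i ∈ range (k N), θ i ω * (x : ℝ) ^ i) := by
      intro x
      change g N l x + T N l x * Pool.Agent.V7H80.LV.frac (Pool.Agent.V7H80.LV.lf (fun v i => (v : ℤ) ^ i)
        (fun i : Fin (k N) => ((θ i ω : ℝ) : UnitAddCircle)) x) = _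
      rw [Pool.Agent.V7H80.LV.lf_coe (fun v i => (v : ℤ) ^ i) (fun i : Fin (k N) => θ i ω) x,
        Pool.Agent.V7H80.LV.frac_coe, Finset.sum_range (fun i => θ i ω * (x : ℝ) ^ i)]
      congr 3
      refine Finset.sum_congr rfl fun i _ => ?_
      push_cast
      ring
    simp_rw [h4] at h3
    exact h3

end Pool.Agent.Results.MP_a93a41_nt.PolynomialArgumentsH80
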